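import Pool.Agent.Helper38.END.Pot
import Pool.Agent.Helper38.NS.Wvq
import Pool.Agent.Helper21.DO.Pl

/-! Exact entropy calculus: END LEMMA, second half. If the first derivatives of the curves over a real point are the
values of a closed polynomial 1-form of rate zero then the top coordinate minus the potential is a label. -/

set_option autoImplicit false

namespace Pool.Agent.Helper38.END

open Finset Filter Topology Pool.Agent.Helper69.RK Pool.Agent.Helper31.EC Pool.Agent.Helper31.EC.Sp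
open Pool.Agent.Helper31.EC.QS Pool.Agent.Helper57.TA Pool.Agent.Helper21.DO Pool.Agent.Helper38.NS

noncomputable section

variable {S : Sp}

/-- the potential has rate zero -/
theorem ptl_mem {D : ℕ} {A : S.L} (Θ : Fin D → MvPolynomial (Fin D) (QS S)) (hΘ : ∀ a, Θ a ∈ PK A) :
    ptl (iv S) Θ ∈ PK A := by
  unfold ptl
  apply (PK A).sum_mem
  intro a _
  refine (PK A).mul_mem (X_mem A a) fun m => ?_
  rw [coeff_homo]
  exact (Kn S 1 le_rfl A).mul_mem (hΘ a m) ((dg_iv _ _).le.trans bot_le)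

/-- ONE CURVE: the derivative of `z` along the curve is the value of the 1-form `Θ` (modulo `2 ^ (-r n)`), `Φ` is a
potential of `Θ`: then `z - Φ(q)` is the constant coefficient of the curve up to functions of the base line -/
theorem curve {D : ℕ} (q x f : Fin D → QS S) (t : QS S) (hq : ∀ a, q a = f a + t * x a)
    (ht : h (QS.dg t 1) (vd x 1 ⊔ vd f 1) = 1) (C : Polynomial (QS S))
    (hC : ∀ n, QS.dg (C.coeff (n + 1)) 1 ≤ vd x 1 ⊔ vd f 1)
    (Θ : Fin D → MvPolynomial (Fin D) (QS S)) (Φ : MvPolynomial (Fin D) (QS S)) (hΦ : Φ ∈ PK (vd x 1 ⊔ vd f 1))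
    {r : ℝ} (hr : r ≤ 1) (hd : ∀ a m, (MvPolynomial.pderiv a Φ - Θ a).coeff m ∈ QS.Id S r)
    (h4 : (Polynomial.derivative C).eval t - ∑ a, x a * MvPolynomial.eval q (Θ a) ∈ QS.Id S r) :
    ∃ c : QS S, QS.dg c 1 ≤ vd x 1 ⊔ vd f 1 ∧ C.eval t - MvPolynomial.eval q Φ - (C.coeff 0 + c) ∈ QS.Id S r := by
  have hG : ∀ a, lp x f a ∈ PK1 (vd x 1 ⊔ vd f 1) := by
    intro a
    exact (PK1 _).add_mem (PK1_C ((dg_le_vd f 1 a).trans le_sup_right))
      ((PK1 _).mul_mem (PK1_X _) (PK1_C ((dg_le_vd x 1 a).trans le_sup_left)))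
  have hGe : (fun a => (lp x f a).eval t) = q := by
    funext a
    unfold Helper21.DO.lp
    rw [Polynomial.eval_add, Polynomial.eval_mul, Polynomial.eval_C, Polynomial.eval_C, Polynomial.eval_X, hq]
  obtain ⟨G, hGd⟩ : ∃ G : Polynomial (QS S), G = MvPolynomial.aeval (lp x f) Φ := ⟨_, rfl⟩
  have hGK : G ∈ PK1 (vd x 1 ⊔ vd f 1) := by
    rw [hGd]
    exact PK1_aeval hΦ _ hG
  have hGv : G.eval t = MvPolynomial.eval q Φ := by rw [hGd, eval_aeval, hGe]
  have hGv' : (Polynomial.derivative G).eval t = ∑ a, x a * MvPolynomial.eval q (MvPolynomial.pderiv a Φ) := by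
    rw [hGd, derivative_aeval, Polynomial.eval_finsetSum]
    apply Finset.sum_congr rfl
    intro a _
    rw [Polynomial.eval_mul, eval_aeval, hGe]
    have h3 : Polynomial.derivative (lp x f a) = Polynomial.C (x a) := by
      unfold Helper21.DO.lp
      simp
    rw [h3, Polynomial.eval_C, mul_comm]
  have h5 : (Polynomial.derivative (C - G)).eval t ∈ QS.Id S r := by
    rw [Polynomial.derivative_sub, Polynomial.eval_sub, hGv']
    have h6 : ∑ a, x a * MvPolynomial.eval q (Θ a) - ∑ a, x a * MvPolynomial.eval q (MvPolynomial.pderiv a Φ) ∈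
        QS.Id S r := by
      rw [← Finset.sum_sub_distrib]
      apply (QS.Id S r).sum_mem
      intro a _
      rw [← mul_sub]
      apply (QS.Id S r).mul_mem_left
      rw [← neg_sub, ← map_sub]
      exact (QS.Id S r).neg_mem (eval_mem_ideal _ (hd a) q)
    have h7 := (QS.Id S r).add_mem h4 h6
    rwa [sub_add_sub_cancel] at h7
  have h8 : ∀ n, (Polynomial.derivative (C - G)).coeff n ∈ QS.Id S r := by
    intro n
    refine coeff_small _ t (A := vd x 1 ⊔ vd f 1) (fun n => ?_) ht hr h5 n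
    rw [Polynomial.coeff_derivative, Polynomial.coeff_sub]
    refine (Kn S 1 le_rfl _).mul_mem ((Kn S 1 le_rfl _).sub_mem (hC n) (hGK (n + 1))) ?_
    exact (Kn S 1 le_rfl _).add_mem (natCast_know _ _) (Kn S 1 le_rfl _).one_mem
  have h9 : ∀ n, (C - G).coeff (n + 1) ∈ QS.Id S r := by
    intro n
    have h10 := (QS.Id S r).mul_mem_right (iv S n) (h8 n)
    rw [Polynomial.coeff_derivative, mul_assoc, mul_comm _ (iv S n), iv_mul, mul_one] at h10
    exact h10
  refine ⟨-G.coeff 0, (Kn S 1 le_rfl _).neg_mem (hGK 0), ?_⟩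
  have h11 : C.eval t - MvPolynomial.eval q Φ - (C.coeff 0 + -G.coeff 0) =
      (C - G - Polynomial.C ((C - G).coeff 0)).eval t := by
    rw [Polynomial.eval_sub, Polynomial.eval_sub, Polynomial.eval_C, hGv, Polynomial.coeff_sub]
    ring
  rw [h11]
  apply eval_coeff_mem
  intro n
  rcases n with _ | n
  · rw [Polynomial.coeff_sub, Polynomial.coeff_C_zero, sub_self]
    exact (QS.Id S r).zero_mem
  · rw [Polynomial.coeff_sub, Polynomial.coeff_C_succ, sub_zero]
    exact h9 n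

/-- END LEMMA, second half: one real point `q`, curves `z = C_i(t)` over the lines `q = f_i + t x_i`, first derivatives
given by the polynomial 1-form `Θ` of rate zero, closed modulo `2 ^ (-r n)` -/
theorem endB {D : ℕ} {ι : Type*} (q : Fin D → QS S) (t z : QS S) (x f : ι → Fin D → QS S)
    (hq : ∀ i a, q a = f i a + t * x i a) (ht : ∀ i, h (QS.dg t 1) (vd (x i) 1 ⊔ vd (f i) 1) = 1)
    (C : ι → Polynomial (QS S)) (hz : ∀ i, z = (C i).eval t)
    (hC : ∀ i n, QS.dg ((C i).coeff (n + 1)) 1 ≤ vd (x i) 1 ⊔ vd (f i) 1)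
    (Θ : Fin D → MvPolynomial (Fin D) (QS S)) (hΘ : ∀ a, Θ a ∈ PK ⊥) {r : ℝ} (hr : r ≤ 1)
    (hcl : ∀ a b m, (MvPolynomial.pderiv b (Θ a) - MvPolynomial.pderiv a (Θ b)).coeff m ∈ QS.Id S r)
    (h4 : ∀ i, (Polynomial.derivative (C i)).eval t - ∑ a, x i a * MvPolynomial.eval q (Θ a) ∈ QS.Id S r) :
    ∃ Φ : MvPolynomial (Fin D) (QS S), Φ ∈ PK ⊥ ∧ QS.dg (z - MvPolynomial.eval q Φ) r ≤ vd q 1 ⊔ QS.dg z 1 ∧
      ∀ i, QS.dg (z - MvPolynomial.eval q Φ) r ≤ vd (x i) 1 ⊔ vd (f i) 1 ⊔ QS.dg ((C i).coeff 0) 1 := by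
  have hP : ptl (iv S) Θ ∈ PK ⊥ := ptl_mem Θ hΘ
  refine ⟨ptl (iv S) Θ, hP, ?_, fun i => ?_⟩
  · refine (dg_mono _ hr).trans ?_
    apply (Kn S 1 le_rfl _).sub_mem
    · show QS.dg z 1 ≤ _
      exact le_sup_right
    · exact eval_mem hP q bot_le fun a => (dg_le_vd q 1 a).trans le_sup_left
  · obtain ⟨c, hc1, hc2⟩ := curve q (x i) (f i) t (hq i) (ht i) (C i) (hC i) Θ (ptl (iv S) Θ)
      (PK_mono bot_le hP) hr (pderiv_ptl (QS.Id S r) (iv S) (fun n => iv_mul n) Θ hcl) (h4 i)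
    rw [hz i, dg_eq_of_sub_mem hc2 le_rfl hr]
    refine (dg_mono _ hr).trans ?_
    apply (Kn S 1 le_rfl _).add_mem
    · show QS.dg ((C i).coeff 0) 1 ≤ _
      exact le_sup_right
    · exact hc1.trans le_sup_left

/-- the label of the END LEMMA has rate zero if there is no information common to the point and all the curves -/
theorem endL {D : ℕ} {ι : Type*} (q : Fin D → QS S) (t z : QS S) (x f : ι → Fin D → QS S)
    (hq : ∀ i a, q a = f i a + t * x i a) (ht : ∀ i, h (QS.dg t 1) (vd (x i) 1 ⊔ vd (f i) 1) = 1)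
    (C : ι → Polynomial (QS S)) (hz : ∀ i, z = (C i).eval t)
    (hC : ∀ i n, QS.dg ((C i).coeff (n + 1)) 1 ≤ vd (x i) 1 ⊔ vd (f i) 1)
    (Θ : Fin D → MvPolynomial (Fin D) (QS S)) (hΘ : ∀ a, Θ a ∈ PK ⊥) {r : ℝ} (hr : r ≤ 1)
    (hcl : ∀ a b m, (MvPolynomial.pderiv b (Θ a) - MvPolynomial.pderiv a (Θ b)).coeff m ∈ QS.Id S r)
    (h4 : ∀ i, (Polynomial.derivative (C i)).eval t - ∑ a, x i a * MvPolynomial.eval q (Θ a) ∈ QS.Id S r)
    (hco : ∀ A : S.L, A ≤ vd q 1 ⊔ QS.dg z 1 →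
      (∀ i, A ≤ vd (x i) 1 ⊔ vd (f i) 1 ⊔ QS.dg ((C i).coeff 0) 1) → A ≤ ⊥) :
    ∃ Φ : MvPolynomial (Fin D) (QS S), Φ ∈ PK ⊥ ∧ QS.dg (z - MvPolynomial.eval q Φ) r ≤ ⊥ := by
  obtain ⟨Φ, h1, h2, h3⟩ := endB q t z x f hq ht C hz hC Θ hΘ hr hcl h4
  exact ⟨Φ, h1, hco _ h2 h3⟩

/-- hence `z` is known to the base point to depth `r` -/
theorem endK {D : ℕ} (q : Fin D → QS S) (z : QS S) {r : ℝ} (hr : r ≤ 1) {B : S.L} (hB : vd q 1 ≤ B)
    (Φ : MvPolynomial (Fin D) (QS S)) (hΦ : Φ ∈ PK ⊥) (hz : QS.dg (z - MvPolynomial.eval q Φ) r ≤ ⊥) :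
    QS.dg z r ≤ B := by
  have h1 : z = (z - MvPolynomial.eval q Φ) + MvPolynomial.eval q Φ := by ring
  rw [h1]
  apply (Kn S r hr B).add_mem
  · exact hz.trans bot_le
  · refine (dg_mono _ hr).trans ?_
    exact eval_mem hΦ q bot_le fun a => (dg_le_vd q 1 a).trans hB

/-- THE END for one coordinate: in a vector of length at least two with full quotients no coordinate is known to the
base at any depth -/
theorem not_known1 {ν : Type} [Fintype ν] {z : ν → QS S} {B : S.L} {ρ : ℝ} (hu : UQ S z B ρ)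
    (hν : 2 ≤ Fintype.card ν) (n : ν) {κ : ℝ} (κ0 : 0 < κ) (κ1 : κ ≤ 1) {W : Sp} (r : Pj W S)
    (hk : QS.dg (r.qs (z n)) κ ≤ r.map B) : False := by
  classical
  obtain ⟨m, hm⟩ : ∃ m, m ≠ n := Fintype.exists_ne_of_one_lt_card (by omega) n
  have h1 := hu.Q W r ⊥ (fun i => if i = m then 1 else 0) m κ κ0.le κ1
    (by unfold I; rw [sup_bot_eq, bot_sup_eq]; ring)
    (fun i => by
      split_ifs
      · exact (Kn W 1 le_rfl _).one_mem
      · exact (Kn W 1 le_rfl _).zero_mem)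
    (by
      rw [if_pos rfl]
      exact isUnit_one)
  obtain ⟨g, hg⟩ : ∃ g : ν → QS W, g = fun i => r.qs (z i) * (if m = m then 1 else 0) -
      r.qs (z m) * (if i = m then 1 else 0) := ⟨_, rfl⟩
  rw [← hg, sup_bot_eq] at h1
  have hgm : g m = 0 := by
    rw [hg]
    beta_reduce
    rw [if_pos rfl]
    ring
  have hgn : g n = r.qs (z n) := by
    rw [hg]
    beta_reduce
    rw [if_pos rfl, if_neg (Ne.symm hm)]
    ring
  have h2 : Helper31.EC.h (vd g κ) (r.map B) ≤ ∑ i, Helper31.EC.h (QS.dg (g i) κ) (r.map B) := h_finsup_le _ _ _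
  have h3 : ∑ i, Helper31.EC.h (QS.dg (g i) κ) (r.map B) ≤ (Fintype.card ν - 2) * κ := by
    rw [← Finset.add_sum_erase _ _ (Finset.mem_univ m), ← Finset.add_sum_erase _ _
      (Finset.mem_erase.mpr ⟨Ne.symm hm, Finset.mem_univ n⟩ : n ∈ (Finset.univ : Finset ν).erase m)]
    have h4 : Helper31.EC.h (QS.dg (g m) κ) (r.map B) = 0 := by
      rw [hgm]
      exact h_zero (((Kn W κ κ1 (r.map B)).zero_mem : QS.dg (0 : QS W) κ ≤ r.map B))
    have h5 : Helper31.EC.h (QS.dg (g n) κ) (r.map B) = 0 := by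
      rw [hgn]
      exact h_zero hk
    rw [h4, h5, zero_add, zero_add]
    have h6 : ∀ i ∈ ((Finset.univ : Finset ν).erase m).erase n, Helper31.EC.h (QS.dg (g i) κ) (r.map B) ≤ κ :=
      fun i _ => (h_le_H _ _).trans (H_dg_le _ κ0.le)
    refine (Finset.sum_le_sum h6).trans (le_of_eq ?_)
    rw [Finset.sum_const, Finset.card_erase_of_mem (Finset.mem_erase.mpr ⟨Ne.symm hm, Finset.mem_univ n⟩),
      Finset.card_erase_of_mem (Finset.mem_univ m), Finset.card_univ, nsmul_eq_mul]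
    have h7 : ((Fintype.card ν - 1 - 1 : ℕ) : ℝ) = (Fintype.card ν : ℝ) - 2 := by
      rw [Nat.sub_sub, Nat.cast_sub hν]
      norm_num
    rw [h7]
  rw [h1] at h2
  have h8 := h2.trans h3
  nlinarith

end

end Pool.Agent.Helper38.END
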