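import Pool.Agent.Helper57.TA.Alg

/-! Potentials of closed polynomial 1-forms, modulo an ideal. -/

set_option autoImplicit false

namespace Pool.Agent.Helper38.END

open Finset

section ring

variable {A : Type*} [CommRing A] {σ : Type*} [Fintype σ]

/-- degree of a monomial -/
def dgm (m : σ →₀ ℕ) : ℕ := ∑ a, m a

/-- division of the homogeneous parts: the coefficient of a monomial of degree `k` is multiplied by `iv k` -/
noncomputable def homo (iv : ℕ → A) (P : MvPolynomial σ A) : MvPolynomial σ A :=
  ∑ m ∈ P.support, MvPolynomial.monomial m (P.coeff m * iv (dgm m))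

theorem coeff_homo (iv : ℕ → A) (P : MvPolynomial σ A) (m : σ →₀ ℕ) :
    (homo iv P).coeff m = P.coeff m * iv (dgm m) := by
  classical
  unfold homo
  rw [MvPolynomial.coeff_sum]
  simp only [MvPolynomial.coeff_monomial]
  rw [Finset.sum_ite_eq' P.support m fun m => P.coeff m * iv (dgm m)]
  split_ifs with h
  · rfl
  · rw [MvPolynomial.notMem_support_iff.mp h, zero_mul]

/-- the potential of the form `∑ Θ_a dX_a` -/
noncomputable def ptl (iv : ℕ → A) (Θ : σ → MvPolynomial σ A) : MvPolynomial σ A :=
  ∑ a, MvPolynomial.X a * homo iv (Θ a)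

omit [Fintype σ] in
theorem coeff_X_mul_add [DecidableEq σ] (P : MvPolynomial σ A) (m : σ →₀ ℕ) (a b : σ) :
    (MvPolynomial.X b * P).coeff (m + Finsupp.single a 1) =
      if b = a then P.coeff m else if m b = 0 then 0 else
        P.coeff (m - Finsupp.single b 1 + Finsupp.single a 1) := by
  rw [MvPolynomial.coeff_X_mul']
  by_cases hb : b = a
  · rw [if_pos hb, hb, if_pos (by simp), add_tsub_cancel_right]
  · rw [if_neg hb]
    by_cases h0 : m b = 0
    · rw [if_pos h0, if_neg]
      rw [Finsupp.mem_support_iff, Finsupp.add_apply, h0, Finsupp.single_eq_of_ne hb, add_zero]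
      exact fun h => h rfl
    · rw [if_neg h0, if_pos]
      · congr 1
        ext c
        rw [Finsupp.tsub_apply, Finsupp.add_apply, Finsupp.add_apply, Finsupp.tsub_apply]
        by_cases hc : c = b
        · rw [hc, Finsupp.single_eq_same, Finsupp.single_eq_of_ne hb]
          omega
        · rw [Finsupp.single_eq_of_ne hc]
          omega
      · rw [Finsupp.mem_support_iff, Finsupp.add_apply]
        omega

theorem dgm_shift (m : σ →₀ ℕ) (a b : σ) (h : m b ≠ 0) :
    dgm (m - Finsupp.single b 1 + Finsupp.single a 1) = dgm m := by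
  classical
  unfold dgm
  have h1 : m = (m - Finsupp.single b 1) + Finsupp.single b 1 := by
    ext c
    rw [Finsupp.add_apply, Finsupp.tsub_apply]
    by_cases hc : c = b
    · rw [hc, Finsupp.single_eq_same]
      omega
    · rw [Finsupp.single_eq_of_ne hc]
      omega
  have h2 : ∀ (n : σ →₀ ℕ) (c : σ), ∑ x, (n + Finsupp.single c 1 : σ →₀ ℕ) x = (∑ x, n x) + 1 := by
    intro n c
    simp only [Finsupp.add_apply]
    rw [Finset.sum_add_distrib]
    congr 1
    rw [Finset.sum_eq_single c]
    · rw [Finsupp.single_eq_same]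
    · intro d _ hd
      rw [Finsupp.single_eq_of_ne hd]
    · intro hc
      exact absurd (Finset.mem_univ c) hc
  rw [h2]
  conv_rhs => rw [h1, h2]

/-- POTENTIALS: the derivatives of the potential of a form which is closed modulo `J` are the coefficients of the form
modulo `J` -/
theorem pderiv_ptl (J : Ideal A) (iv : ℕ → A) (hiv : ∀ n : ℕ, iv n * (n + 1) = 1) (Θ : σ → MvPolynomial σ A)
    (hc : ∀ a b m, (MvPolynomial.pderiv b (Θ a) - MvPolynomial.pderiv a (Θ b)).coeff m ∈ J) (a : σ) (m : σ →₀ ℕ) :
    (MvPolynomial.pderiv a (ptl iv Θ) - Θ a).coeff m ∈ J := by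
  classical
  have e1 : (MvPolynomial.pderiv a (ptl iv Θ)).coeff m =
      ∑ b, (MvPolynomial.X b * homo iv (Θ b)).coeff (m + Finsupp.single a 1) * ((m a : A) + 1) := by
    rw [MvPolynomial.coeff_pderiv]
    unfold ptl
    rw [MvPolynomial.coeff_sum, Finset.sum_mul]
  have e2 : (Θ a).coeff m = ∑ b, (Θ a).coeff m * iv (dgm m) * ((m b : A) + if b = a then 1 else 0) := by
    rw [← Finset.mul_sum, Finset.sum_add_distrib, Finset.sum_ite_eq' Finset.univ a fun _ => (1 : A),
      if_pos (Finset.mem_univ a), mul_assoc]
    have h1 : ((dgm m : ℕ) : A) = ∑ b, (m b : A) := by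
      unfold dgm
      rw [Nat.cast_sum]
    rw [← h1, hiv, mul_one]
  rw [MvPolynomial.coeff_sub, e1, e2, ← Finset.sum_sub_distrib]
  apply J.sum_mem
  intro b _
  rw [coeff_X_mul_add]
  by_cases hb : b = a
  · rw [if_pos hb, if_pos hb, coeff_homo, hb, sub_self]
    exact J.zero_mem
  · rw [if_neg hb, if_neg hb, add_zero]
    by_cases h0 : m b = 0
    · rw [if_pos h0, h0, Nat.cast_zero, mul_zero, zero_mul, sub_self]
      exact J.zero_mem
    · rw [if_neg h0, coeff_homo, dgm_shift m a b h0]
      have h1 := hc a b (m - Finsupp.single b 1)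
      rw [MvPolynomial.coeff_sub, MvPolynomial.coeff_pderiv, MvPolynomial.coeff_pderiv] at h1
      have h2 : m - Finsupp.single b 1 + Finsupp.single b 1 = m := by
        ext c
        rw [Finsupp.add_apply, Finsupp.tsub_apply]
        by_cases hc' : c = b
        · rw [hc', Finsupp.single_eq_same]
          omega
        · rw [Finsupp.single_eq_of_ne hc']
          omega
      have h3 : ((m - Finsupp.single b 1 : σ →₀ ℕ) b : A) + 1 = m b := by
        rw [Finsupp.tsub_apply, Finsupp.single_eq_same]
        have h4 : m b = (m b - 1) + 1 := by omega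
        conv_rhs => rw [h4]
        rw [Nat.cast_add, Nat.cast_one]
      have h5 : (m - Finsupp.single b 1 : σ →₀ ℕ) a = m a := by
        rw [Finsupp.tsub_apply, Finsupp.single_eq_of_ne fun h => hb h.symm]
        omega
      rw [h2, h3, h5] at h1
      have h6 := J.mul_mem_left (-iv (dgm m)) h1
      have h7 : -iv (dgm m) * ((Θ a).coeff m * (m b : A) -
          (Θ b).coeff (m - Finsupp.single b 1 + Finsupp.single a 1) * ((m a : A) + 1)) =
          (Θ b).coeff (m - Finsupp.single b 1 + Finsupp.single a 1) * iv (dgm m) * ((m a : A) + 1) -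
            (Θ a).coeff m * iv (dgm m) * (m b : A) := by ring
      rw [h7] at h6
      exact h6

end ring

end Pool.Agent.Helper38.END
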